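import Pool.Agent.H18X.Fam
import Pool.Agent.H14X.Admx
import Pool.Agent.H68K.PR.AdmK
import Pool.Agent.H18PR.Sha2
import Pool.Agent.H18PR.ShaLaw

/-!
# The members of the family over the admissible extensions
-/

set_option autoImplicit false
set_option linter.all false

open Polynomial NumberField IsDedekindDomain WeierstrassCurve WeierstrassCurve.Affine
open scoped Classical Pointwise

namespace Pool.Agent.H18X

open Pool.Agent.TH115.GD (Pt act rs IsCoc LocTriv Comp Sep)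
open Pool.Agent.N874.PP (sW)
open Pool.Agent.N874.PM (PLoc)
open Pool.Agent.N783.PF (Cg sp rd GoodS GoodF SqF fF Dp)
open Pool.Agent.H68K.PR
open Pool.Agent.H14F (Adm Dat Lam Tot Unr)

section one

variable {M : Type} [Field M] [NumberField M]

theorem ploc_one {K : Type} [Field K] [Algebra M K] (A B : M) : PLoc K A B (1 : M[X]) :=
  Or.inl ⟨1, by simp⟩

theorem selH_one (A B : M) : SelH A B (1 : M[X]) := by
  refine ⟨isCoprime_one_left, ?_, fun w => ploc_one A B, fun ρ => ?_⟩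
  · rw [map_one, map_one]
    exact ⟨1, by rw [mul_one]⟩
  · letI := ρ.toAlgebra
    exact ploc_one A B

theorem selN_pos {A B : M} {n : ℕ} (h : SelN A B n) : 0 < n := by
  obtain ⟨r, -, -, h⟩ := h
  obtain ⟨i, -⟩ := h 1 (selH_one A B)
  exact i.pos

/-- The rank and `Ш[2]` of a member. -/
theorem sha_of_gd {p : 𝓞 M × 𝓞 M} {n : ℕ} (h : Gd n p) :
    (Sha2 (sW (p.1 : M) (p.2 : M))).Finite ∧
    2 ^ Module.finrank ℤ (Pt (sW (p.1 : M) (p.2 : M)) M) *
      Nat.card (Sha2 (sW (p.1 : M) (p.2 : M))) = n := by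
  obtain ⟨hi, hs⟩ := h
  have hd : 4 * (p.1 : M) ^ 3 + 27 * (p.2 : M) ^ 2 ≠ 0 := Pool.Agent.H64.PR.disc_ne hi
  have hc := Pool.Agent.H42PR.coc M _ _ hd hi n hs
  have hn := selN_pos hs
  have hfin : (Sel2 (sW (p.1 : M) (p.2 : M))).Finite := by
    have h1 : Nat.card (Sel2 (sW (p.1 : M) (p.2 : M))) ≠ 0 := by rw [hc]; exact hn.ne'
    haveI := Nat.finite_of_card_ne_zero h1
    exact Set.toFinite _
  obtain ⟨h1, h2⟩ := Pool.Agent.H18PR.RL.sha2 M _ _ hd
    (Pool.Agent.H18PR.RL.nt2 M _ _ hi) hfin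
  exact ⟨h1, by rw [← h2, hc]⟩

end one

section adm

variable {F : Type} [Field F] [NumberField F]

theorem gal_self (σ : Gal(F/F)) : σ = 1 := by
  ext x
  exact σ.commutes x

theorem adm_self (p : 𝓞 F × 𝓞 F) : Adm F F p := by
  have h1 : ∀ H : Subgroup Gal(F/F), H = ⊥ := fun H => by
    rw [eq_bot_iff]
    intro σ _
    rw [gal_self σ]
    exact Subgroup.one_mem _
  refine ⟨inferInstance, ⟨0, by rw [Module.finrank_self, pow_zero]⟩, fun w _ => h1 _,
    fun w _ _ => h1 _, fun σ => ⟨σ, ?_⟩, fun w hw => absurd (h1 _) hw⟩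
  ext x
  rfl

theorem StrX.lam {p : 𝓞 F × 𝓞 F} (h : StrX p) : (Lam F p).Infinite := by
  obtain ⟨W, f, f₁, S, J, 𝔮, h, P, hm, hd, htr, hirr, hsq, hf₁, hS, hW, hcon, hJ, hEX, rfl⟩ := h
  obtain ⟨L, _, _, _, θ, hgen⟩ := Pool.Agent.N667.PF.gen F 1 f hm hd hirr
  have Dt : Dat 1 W f f₁ θ S J 𝔮 h P :=
    ⟨le_rfl, hgen, hsq, hf₁, hS, hW, hcon, hJ⟩
  have h1 := Pool.Agent.H14F.lam_infinite Dt htr hEX.irr hEX.spl
  have e : Pool.Agent.H14F.cf (f.scaleRoots ((Dp J : ℕ) : 𝓞 F)) =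
      twp J (f.coeff 1, f.coeff 0) := by
    rw [Pool.Agent.H14F.cf_scale hd]
    simp [twp, Pool.Agent.H68K.PR.tw, Dp, mul_comm]
  rw [e] at h1
  exact h1

end adm

end Pool.Agent.H18X
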