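import Pool.Agent.H18X.Adm
import Pool.Agent.H18PR.RatLaw

/-!
# The law for all number fields, ordered by the naive height
-/

set_option autoImplicit false
set_option linter.all false

open Polynomial NumberField IsDedekindDomain
open scoped Classical Pointwise

namespace Pool.Agent.H18X

open Pool.Agent.H68K.PR
open Pool.Agent.H18PR.RL (αq βq αq_pos βq_pos αq_pow βq_pow)

variable {F : Type} [Field F] [NumberField F]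

/-- The naive height is at most `Y`. -/
def HN (Y : ℝ) (p : 𝓞 F × 𝓞 F) : Prop :=
  ∀ σ : F →+* ℂ, 4 * ‖σ (p.1 : F)‖ ^ 3 ≤ Y ∧ 27 * ‖σ (p.2 : F)‖ ^ 2 ≤ Y

theorem hn_iff {Y : ℝ} (hY : 0 < Y) (p : 𝓞 F × 𝓞 F) :
    HW (fun _ => αq) (fun _ => βq) (fun _ => Y ^ (1 / 12 : ℝ)) 1 p ↔ HN Y p := by
  have hs : (Y ^ (1 / 12 : ℝ)) ^ 12 = Y := by
    rw [← Real.rpow_natCast, ← Real.rpow_mul hY.le]
    norm_num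
  set s : ℝ := Y ^ (1 / 12 : ℝ) with hsd
  have hs0 : 0 < s := Real.rpow_pos_of_pos hY _
  have ha := αq_pos
  have hb := βq_pos
  have ha3 := αq_pow
  have hb2 := βq_pow
  have key1 : ∀ x : ℝ, 0 ≤ x → (x ≤ αq * s ^ 4 ↔ 4 * x ^ 3 ≤ Y) := by
    intro x hx
    rw [← pow_le_pow_iff_left₀ hx (by positivity : 0 ≤ αq * s ^ 4)
      (by norm_num : 3 ≠ 0), mul_pow, ha3, ← pow_mul, hs]
    constructor <;> intro h <;> linarith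
  have key2 : ∀ x : ℝ, 0 ≤ x → (x ≤ βq * s ^ 6 ↔ 27 * x ^ 2 ≤ Y) := by
    intro x hx
    rw [← pow_le_pow_iff_left₀ hx (by positivity : 0 ≤ βq * s ^ 6)
      (by norm_num : 2 ≠ 0), mul_pow, hb2, ← pow_mul, hs]
    constructor <;> intro h <;> linarith
  unfold HW HN
  constructor
  · intro h σ
    obtain ⟨h1, h2⟩ := h (InfinitePlace.mk σ)
    rw [one_pow, one_mul, InfinitePlace.apply] at h1 h2
    exact ⟨(key1 _ (norm_nonneg _)).1 h1, (key2 _ (norm_nonneg _)).1 h2⟩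
  · intro h v
    obtain ⟨h1, h2⟩ := h v.embedding
    rw [one_pow, one_mul, one_pow, one_mul, ← InfinitePlace.mk_embedding v,
      InfinitePlace.apply, InfinitePlace.apply]
    exact ⟨(key1 _ (norm_nonneg _)).2 h1, (key2 _ (norm_nonneg _)).2 h2⟩

theorem prod_s {Y : ℝ} : ∏ v : InfinitePlace F, (Y ^ (1 / 12 : ℝ)) ^ v.mult =
    (Y ^ (1 / 12 : ℝ)) ^ Module.finrank ℚ F := by
  rw [Finset.prod_pow_eq_pow_sum, InfinitePlace.sum_mult_eq]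

/-- The family of `M` and `R`. -/
def FamM (M : ℕ) (R : Set (𝓞 F × 𝓞 F)) : Set (𝓞 F × 𝓞 F) :=
  {p | p ∈ R ∧ 4 * p.1 ^ 3 + 27 * p.2 ^ 2 ≠ 0 ∧ ∀ v : HeightOneSpectrum (𝓞 F),
    (M : 𝓞 F) ∉ v.asIdeal → 4 * p.1 ^ 3 + 27 * p.2 ^ 2 ∉ v.asIdeal ^ 2}

/-- The law over `F`, ordered by the naive height. -/
theorem law (F : Type) [Field F] [NumberField F] (ε : ℝ) (hε : 0 < ε) :
    ∃ (M : ℕ) (R : Set (𝓞 F × 𝓞 F)), 0 < M ∧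
    (∀ p p' : 𝓞 F × 𝓞 F, p ∈ R → (M : 𝓞 F) ∣ p'.1 - p.1 → (M : 𝓞 F) ∣ p'.2 - p.2 → p' ∈ R) ∧
    (∀ p ∈ FamM M R, ∀ 𝔭 : Ideal (𝓞 F), 𝔭.IsPrime → 𝔭 ≠ ⊥ → ¬ (p.1 ∈ 𝔭 ^ 4 ∧ p.2 ∈ 𝔭 ^ 6)) ∧
    (∀ p ∈ FamM M R, StrX p) ∧
    ∃ (c Y₀ : ℝ), 0 < c ∧ 0 < Y₀ ∧ ∀ Y : ℝ, Y₀ ≤ Y → {p : 𝓞 F × 𝓞 F | HN Y p}.Finite ∧
    0 < {p : 𝓞 F × 𝓞 F | HN Y p ∧ 4 * p.1 ^ 3 + 27 * p.2 ^ 2 ≠ 0}.ncard ∧
    c * ({p : 𝓞 F × 𝓞 F | HN Y p ∧ 4 * p.1 ^ 3 + 27 * p.2 ^ 2 ≠ 0}.ncard : ℝ) ≤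
      ({p : 𝓞 F × 𝓞 F | HN Y p ∧ p ∈ FamM M R}.ncard : ℝ) ∧
    ∀ K : Set ℕ, |({p : 𝓞 F × 𝓞 F | HN Y p ∧ p ∈ FamM M R ∧ ∃ k ∈ K, Gd (2 ^ k) p}.ncard : ℝ) -
        (∑' k : K, pr2 k) * ({p : 𝓞 F × 𝓞 F | HN Y p ∧ p ∈ FamM M R}.ncard : ℝ)| ≤
      ε * ({p : 𝓞 F × 𝓞 F | HN Y p ∧ p ∈ FamM M R}.ncard : ℝ) := by
  obtain ⟨M, R, hM, hR, h⟩ := fin7yT F (fun _ => αq) (fun _ => βq)
    (fun _ => ⟨αq_pos, βq_pos⟩) ε hε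
  have hGe : FamM M R = {p : 𝓞 F × 𝓞 F | p ∈ R ∧ ∀ 𝔭 : Ideal (𝓞 F), 𝔭.IsPrime →
      (M : 𝓞 F) ∉ 𝔭 → 4 * p.1 ^ 3 + 27 * p.2 ^ 2 ∉ 𝔭 ^ 2} := by
    ext p
    constructor
    · rintro ⟨h1, h2, h3⟩
      refine ⟨h1, fun 𝔭 hp hMp => ?_⟩
      by_cases h0 : 𝔭 = ⊥
      · rw [h0, ← Ideal.zero_eq_bot, zero_pow two_ne_zero, Ideal.zero_eq_bot, Ideal.mem_bot]
        exact h2
      · exact h3 ⟨𝔭, hp, h0⟩ hMp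
    · rintro ⟨h1, h2⟩
      refine ⟨h1, ?_, fun v hv => h2 v.asIdeal v.isPrime hv⟩
      have h3 := h2 ⊥ Ideal.isPrime_bot (by
        rw [Ideal.mem_bot]
        exact_mod_cast hM.ne')
      rwa [← Ideal.zero_eq_bot, zero_pow two_ne_zero, Ideal.zero_eq_bot, Ideal.mem_bot] at h3
  obtain ⟨hmin, hst, c, L₀, hc, h⟩ := h (FamM M R) hGe
  obtain ⟨Y₁, hY₁⟩ := Filter.eventually_atTop.1
    ((tendsto_rpow_atTop (by norm_num : (0 : ℝ) < 1 / 12)).eventually_ge_atTop (max 1 L₀))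
  refine ⟨M, R, hM, fun p p' hp h1 h2 => hR p p' hp (Ideal.mem_span_singleton.2 h1)
    (Ideal.mem_span_singleton.2 h2), hmin, hst, c, max 1 Y₁, hc,
    lt_of_lt_of_le one_pos (le_max_left _ _), fun Y hY => ?_⟩
  have hY1 : 1 ≤ Y := (le_max_left _ _).trans hY
  have hY0 : 0 < Y := zero_lt_one.trans_le hY1
  have hs1 : max 1 L₀ ≤ Y ^ (1 / 12 : ℝ) := hY₁ Y ((le_max_right _ _).trans hY)
  have hs2 : (1 : ℝ) ≤ Y ^ (1 / 12 : ℝ) := (le_max_left _ _).trans hs1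
  obtain ⟨h2, h3⟩ := h (fun _ => Y ^ (1 / 12 : ℝ)) (fun _ => Real.rpow_pos_of_pos hY0 _)
  obtain ⟨h4, h5, h6⟩ := h3 (by
    rw [prod_s]
    calc L₀ ≤ Y ^ (1 / 12 : ℝ) := (le_max_right _ _).trans hs1
      _ = (Y ^ (1 / 12 : ℝ)) ^ 1 := (pow_one _).symm
      _ ≤ _ := pow_le_pow_right₀ hs2 (Module.finrank_pos))
  simp only [hn_iff hY0] at h2 h4 h5 h6
  exact ⟨h2, h4, h5, h6⟩

end Pool.Agent.H18X
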