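import Pool.Agent.H68K.PR.Fin7x
import Pool.Agent.H18X.Bal

/-!
# The law in the family, with the stronger structure of the members

This is `H68K/PR/Fam7x.lean` and `H68K/PR/Fin7x.lean` (helper68) with `S_BAL7X` instead of `S_BAL7`.
-/

set_option autoImplicit false
set_option linter.all false

open Polynomial IsDedekindDomain Matrix NumberField WithZero
open scoped Classical

namespace Pool.Agent.H18X

open Pool.Agent.H68K.PR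

open Pool.Agent.N874.PP (sW)
open Pool.Agent.N783.PF hiding tw

/-- `Str` with the additional property of the modulus. -/
def StrX {F : Type} [Field F] [NumberField F] (p : 𝓞 F × 𝓞 F) : Prop :=
  ∃ (W : ℕ) (f f₁ : (𝓞 F)[X]) (S J : Finset ℕ) (𝔮 : ℕ → Ideal (𝓞 F)) (h P : ℕ → (𝓞 F)[X]),
    f.Monic ∧ f.natDegree = 3 ∧ f.coeff 2 = 0 ∧ Irreducible (fF f) ∧ SqF 1 f ∧ GoodF 1 W f₁ ∧
    GoodS 1 W S 𝔮 h P ∧ Cg (sp F W) f f₁ ∧ (∀ q ∈ S, Cg (sp F q) f (P q)) ∧ J ⊆ S ∧ EX W f₁ ∧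
    p = twp J (f.coeff 1, f.coeff 0)

theorem StrX.str {F : Type} [Field F] [NumberField F] {p : 𝓞 F × 𝓞 F} (h : StrX p) : Str p := by
  obtain ⟨W, f, f₁, S, J, 𝔮, r, P, h1, h2, h3, h4, h5, h6, h7, h8, h9, h10, -, h11⟩ := h
  exact ⟨W, f, f₁, S, J, 𝔮, r, P, h1, h2, h3, h4, h5, h6, h7, h8, h9, h10, h11⟩

/-- As `S_FAM7X`, with `StrX`. -/
def S_FAM7Y : Prop := ∀ (F : Type) [Field F] [NumberField F] (α β : InfinitePlace F → ℝ),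
  (∀ v, 0 < α v ∧ 0 < β v) → ∀ ε : ℝ, 0 < ε →
  ∃ (N : ℕ) (a b : 𝓞 F) (D : Finset ℕ), OkN N a b ∧ (∀ d ∈ D, 0 < d ∧
      ∀ 𝔭 : Ideal (𝓞 F), 𝔭.IsPrime → 𝔭 ≠ ⊥ → (d : 𝓞 F) ∉ 𝔭 ^ 2) ∧
    (∀ p ∈ Fml N a b D, StrX p) ∧
    ∃ (c L₀ : ℝ), 0 < c ∧ ∀ r : InfinitePlace F → ℝ, (∀ v, 0 < r v) →
    {p : 𝓞 F × 𝓞 F | HW α β r 1 p}.Finite ∧ (L₀ ≤ ∏ v, r v ^ v.mult →
    0 < {p : 𝓞 F × 𝓞 F | HW α β r 1 p ∧ 4 * p.1 ^ 3 + 27 * p.2 ^ 2 ≠ 0}.ncard ∧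
    c * ({p : 𝓞 F × 𝓞 F | HW α β r 1 p ∧ 4 * p.1 ^ 3 + 27 * p.2 ^ 2 ≠ 0}.ncard : ℝ) ≤
      ({p : 𝓞 F × 𝓞 F | HW α β r 1 p ∧ p ∈ Fml N a b D}.ncard : ℝ) ∧
    ∀ k : ℕ, |({p : 𝓞 F × 𝓞 F | HW α β r 1 p ∧ p ∈ Fml N a b D ∧ Gd (2 ^ k) p}.ncard : ℝ) -
        pr2 k * ({p : 𝓞 F × 𝓞 F | HW α β r 1 p ∧ p ∈ Fml N a b D}.ncard : ℝ)| ≤
      ε * ({p : 𝓞 F × 𝓞 F | HW α β r 1 p ∧ p ∈ Fml N a b D}.ncard : ℝ))

theorem fam7y (hirr : S_IRR) (hC : S_COC) (hE : S_EUL) (hB6 : S_BAL7X) (hSh : S_SHL) (hR : S_REGW) (hX : S_EXV)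
    (hD : S_DSJ) : S_FAM7Y := by
  intro F _ _ α β hαβ ε hε
  obtain ⟨W, cW, hW, hcW, hB⟩ := hB6 F
  obtain ⟨ε', hε'⟩ : ∃ ε' : ℝ, ε' = min (ε / 6) (1 / 4) := ⟨_, rfl⟩
  have hε0 : 0 < ε' := by rw [hε']; positivity
  have hε1 : ε' ≤ 1 / 4 := by rw [hε']; exact min_le_right _ _
  have hε2 : 6 * ε' ≤ ε := by
    have : ε' ≤ ε / 6 := by rw [hε']; exact min_le_left _ _
    linarith
  obtain ⟨δ₀, hδ₀, hRg⟩ := hR hSh F α β hαβ W cW hW hcW ε' hε0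
  obtain ⟨m₀, hm₀⟩ := hB ε' δ₀ hε0 hδ₀
  obtain ⟨n₀, hn₀⟩ := hm₀ (m₀ + 2) (by omega)
  obtain ⟨η, hη, hreg⟩ := hRg (m₀ + 2)
  obtain ⟨S, R, 𝔮, h, P, Q, hdSR, hGS, hcard, hcube, hQ, hqS, hqR, hcS⟩ :=
    hX F W m₀ (max n₀ (m₀ + 2)) η hη
  obtain ⟨a, b, hok, hmem, hbox⟩ := hn₀ S R 𝔮 h P hdSR hGS ((le_max_left _ _).trans hcard) hcube
  have hprime : ∀ q ∈ S ∪ R, q.Prime := fun q hq => (hGS q hq).1
  have hram : ∀ q ∈ S ∪ R, ∀ 𝔭 : Ideal (𝓞 F), 𝔭.IsPrime → (q : 𝓞 F) ∉ 𝔭 ^ 2 :=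
    fun q hq => (hGS q hq).2.2.2.2.1
  have hPn0 : 0 < ∏ q ∈ S ∪ R, q := Finset.prod_pos fun q hq => (hprime q hq).pos
  obtain ⟨N, hN⟩ : ∃ N : ℕ, N = W * ∏ q ∈ S ∪ R, q := ⟨_, rfl⟩
  have hQr : (0 : ℝ) < Q := by exact_mod_cast hQ
  have hη1 : (0 : ℝ) < 1 + η := by linarith
  have hPe : (((∏ q ∈ S ∪ R, q ^ 2) ^ Module.finrank ℚ F : ℕ) : ℝ) =
      ((∏ q ∈ S ∪ R, q : ℕ) : ℝ) ^ (2 * Module.finrank ℚ F) := by
    rw [Finset.prod_pow, ← pow_mul]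
    push_cast
    rfl
  obtain ⟨c, L₀, hc, hY⟩ := hreg (∏ q ∈ S ∪ R, q) a b (Law2 S R m₀ (m₀ + 2) ε') hPn0 hok
    (fun u p hp => law2_um u hp) (by
      intro u
      obtain ⟨B₀, hB₀⟩ := hbox u
      refine ⟨B₀, fun B hB => ?_⟩
      have := hB₀ B hB
      rw [hPe] at this
      exact this) ((Q : ℝ) ^ (m₀ + 2)) (by positivity)
  rw [← hN] at hok hY hmem
  have hcn : m₀ + 2 ≤ S.card := (le_max_right _ _).trans hcard
  have hSsub : S ⊆ S ∪ R := Finset.subset_union_left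
  -- the combinations
  obtain ⟨ψ, hψ⟩ : ∃ ψ : Finset ℕ × ℕ → Finset ℕ, ψ = fun x => insert x.2 x.1 := ⟨_, rfl⟩
  obtain ⟨C1, hC1⟩ : ∃ C1 : Finset (Finset ℕ), C1 = S.powersetCard (m₀ + 2) := ⟨_, rfl⟩
  obtain ⟨C2, hC2⟩ : ∃ C2 : Finset (Finset ℕ), C2 = ((S.powersetCard m₀) ×ˢ R).image ψ := ⟨_, rfl⟩
  obtain ⟨Cc, hCc⟩ : ∃ Cc : Finset (Finset ℕ), Cc = C1 ∪ C2 := ⟨_, rfl⟩
  obtain ⟨M₁, hM₁⟩ : ∃ M₁ : ℕ, M₁ = S.card.choose (m₀ + 2) := ⟨_, rfl⟩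
  have hM₁' : R.card * S.card.choose m₀ = M₁ := by rw [hM₁, hcS]
  have hM₁0 : 0 < M₁ := by
    rw [hM₁]
    exact Nat.choose_pos hcn
  have hrS : ∀ r ∈ R, r ∉ S := fun r hr hr' => (Finset.disjoint_left.1 hdSR) hr' hr
  have hψinj : ∀ x ∈ (S.powersetCard m₀) ×ˢ R, ∀ y ∈ (S.powersetCard m₀) ×ˢ R, ψ x = ψ y → x = y := by
    intro x hx y hy hxy
    rw [Finset.mem_product, Finset.mem_powersetCard] at hx hy
    rw [hψ] at hxy
    replace hxy : (insert x.2 x.1 : Finset ℕ) = insert y.2 y.1 := hxy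
    have e1 : x.2 = y.2 := by
      have h1 : x.2 ∈ (insert y.2 y.1 : Finset ℕ) := by
        rw [← hxy]
        exact Finset.mem_insert_self _ _
      rcases Finset.mem_insert.1 h1 with h2 | h2
      · exact h2
      · exact absurd (hy.1.1 h2) (hrS _ hx.2)
    have e2 : x.1 = y.1 := by
      have h1 : (insert x.2 x.1).erase x.2 = (insert y.2 y.1).erase y.2 := by
        rw [← e1]
        exact congrArg (fun z : Finset ℕ => z.erase x.2) (by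
          have h2 : (insert x.2 x.1 : Finset ℕ) = insert y.2 y.1 := hxy
          rw [h2, e1])
      rw [Finset.erase_insert (fun h0 => hrS _ hx.2 (hx.1.1 h0)),
        Finset.erase_insert (fun h0 => hrS _ hy.2 (hy.1.1 h0))] at h1
      exact h1
    exact Prod.ext e2 e1
  have hC1mem : ∀ J, J ∈ C1 ↔ J ⊆ S ∧ J.card = m₀ + 2 := by
    intro J
    rw [hC1, Finset.mem_powersetCard]
  have hC2mem : ∀ J, J ∈ C2 ↔ ∃ I ⊆ S, I.card = m₀ ∧ ∃ r ∈ R, J = insert r I := by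
    intro J
    rw [hC2, Finset.mem_image]
    constructor
    · rintro ⟨x, hx, rfl⟩
      rw [Finset.mem_product, Finset.mem_powersetCard] at hx
      exact ⟨x.1, hx.1.1, hx.1.2, x.2, hx.2, by rw [hψ]⟩
    · rintro ⟨I, hI, hc, r, hr, rfl⟩
      refine ⟨(I, r), ?_, by rw [hψ]⟩
      rw [Finset.mem_product, Finset.mem_powersetCard]
      exact ⟨⟨hI, hc⟩, hr⟩
  have hdisj : Disjoint C1 C2 := by
    rw [Finset.disjoint_left]
    intro J hJ hJ'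
    rw [hC1mem] at hJ
    rw [hC2mem] at hJ'
    obtain ⟨I, hI, -, r, hr, rfl⟩ := hJ'
    exact hrS r hr (hJ.1 (Finset.mem_insert_self _ _))
  have hCcard : (Cc.card : ℝ) = 2 * M₁ := by
    have : Cc.card = 2 * M₁ := by
      rw [hCc, Finset.card_union_of_disjoint hdisj, hC1, hC2, Finset.card_powersetCard,
        Finset.card_image_of_injOn (fun x hx y hy => hψinj x hx y hy), Finset.card_product,
        Finset.card_powersetCard, ← hM₁, mul_comm (S.card.choose m₀), hM₁']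
      ring
    exact_mod_cast this
  have hCsub : ∀ J ∈ Cc, J ⊆ S ∪ R := by
    intro J hJ
    rw [hCc, Finset.mem_union, hC1mem, hC2mem] at hJ
    rcases hJ with ⟨h1, -⟩ | ⟨I, hI, -, r, hr, rfl⟩
    · exact h1.trans hSsub
    · exact Finset.insert_subset (Finset.mem_union_right _ hr) (hI.trans hSsub)
  have hδ0 : ∀ J ∈ Cc, 0 < Dp J := by
    intro J hJ
    exact Finset.prod_pos fun q hq => (hprime q (hCsub J hJ hq)).pos
  have hδinj : ∀ x ∈ Cc, ∀ y ∈ Cc, Dp x = Dp y → x = y := by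
    intro x hx y hy hxy
    exact dp_inj1 hprime (hCsub x hx) (hCsub y hy) hxy
  have hδsize : ∀ x ∈ Cc, (Q : ℝ) ^ (m₀ + 2) ≤ Dp x ∧
      (Dp x : ℝ) ≤ (1 + η) ^ (m₀ + 2) * (Q : ℝ) ^ (m₀ + 2) := by
    intro x hx
    rw [hCc, Finset.mem_union, hC1mem, hC2mem] at hx
    rcases hx with ⟨h1, h2⟩ | ⟨I, hI, hIc, r, hr, rfl⟩
    · obtain ⟨s1, s2⟩ := dp_size hη h1 hqS
      rw [h2] at s1 s2
      rw [mul_pow] at s2
      exact ⟨s1, s2⟩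
    · obtain ⟨s1, s2⟩ := dp_size hη hI hqS
      rw [hIc] at s1 s2
      obtain ⟨r1, r2⟩ := hqR r hr
      have r1' : (Q : ℝ) ^ 2 ≤ (r : ℝ) := by exact_mod_cast r1
      have e : (Dp (insert r I) : ℝ) = (Dp I : ℝ) * r := by
        rw [Dp, Finset.prod_insert (fun h0 => hrS r hr (hI h0)), ← Dp]
        push_cast
        ring
      rw [e]
      constructor
      · rw [pow_add]
        exact mul_le_mul s1 r1' (by positivity) (Nat.cast_nonneg _)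
      · calc (Dp I : ℝ) * r ≤ ((1 + η) * Q) ^ m₀ * ((1 + η) * Q ^ 2) :=
              mul_le_mul s2 r2 (Nat.cast_nonneg _) (by positivity)
          _ ≤ ((1 + η) * Q) ^ m₀ * ((1 + η) ^ 2 * Q ^ 2) := by
              gcongr
              nlinarith
          _ = (1 + η) ^ (m₀ + 2) * (Q : ℝ) ^ (m₀ + 2) := by
              rw [mul_pow, pow_add, pow_add]
              ring
  obtain ⟨D, hDd⟩ : ∃ D : Finset ℕ, D = Cc.image Dp := ⟨_, rfl⟩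
  have hE1 : ∀ k, pr2 k ≤ 1 := by
    intro k
    obtain ⟨h1, h2, -⟩ := hE
    exact le_hasSum h2 k (fun j _ => (h1 j).le)
  refine ⟨N, a, b, D, hok, ?_, ?_, c, L₀, hc, fun ρ hρ => ⟨(hY ρ hρ).1, fun hYY => ?_⟩⟩
  · intro d hd
    rw [hDd, Finset.mem_image] at hd
    obtain ⟨x, hx, rfl⟩ := hd
    exact ⟨hδ0 x hx, fun 𝔭 h𝔭 _ => dp_sqf hprime hram (hCsub x hx) 𝔭 h𝔭⟩
  · rintro p ⟨d, hd, p₀, hp₀, rfl⟩
    rw [hDd, Finset.mem_image] at hd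
    obtain ⟨x, hx, rfl⟩ := hd
    obtain ⟨f₁, k1, kx, k2, k3, k4⟩ := hmem p₀ hp₀
    refine ⟨W, Pool.Agent.H93PR.pl p₀, f₁, S ∪ R, x, 𝔮, h, P, Pool.Agent.H93PR.pl_mon p₀,
      Pool.Agent.H93PR.pl_nd p₀, Pool.Agent.H93PR.pl2 p₀, hirr F 1 W f₁ _ k1 k2
        (Pool.Agent.H93PR.pl_mon p₀) (Pool.Agent.H93PR.pl_nd p₀), k4, k1, hGS, k2, k3,
      hCsub x hx, kx, ?_⟩
    rw [Pool.Agent.H93PR.pl1, Pool.Agent.H93PR.pl0]
    rfl
  obtain ⟨y1, y2, y3, y4⟩ := (hY ρ hρ).2.2 hYY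
  have hTf : {p : 𝓞 F × 𝓞 F | HW α β ρ ((Q : ℝ) ^ (m₀ + 2)) p ∧ InFam N a b p}.Finite :=
    (hY ρ hρ).2.1.subset fun p hp => hp.1
  obtain ⟨T, hT⟩ : ∃ T : Finset (𝓞 F × 𝓞 F), T = hTf.toFinset := ⟨_, rfl⟩
  have hTm : ∀ p, p ∈ T ↔ HW α β ρ ((Q : ℝ) ^ (m₀ + 2)) p ∧ InFam N a b p := by
    intro p
    rw [hT, Set.Finite.mem_toFinset]
    rfl
  have hTc : {p : 𝓞 F × 𝓞 F | HW α β ρ ((Q : ℝ) ^ (m₀ + 2)) p ∧ InFam N a b p}.ncard = T.card := by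
    rw [hT, Set.ncard_eq_toFinset_card _ hTf]
  obtain ⟨Tg, hTg⟩ : ∃ Tg : Finset (𝓞 F × 𝓞 F), Tg = T.filter fun p =>
    HW α β ρ ((1 + η) ^ (m₀ + 2) * (Q : ℝ) ^ (m₀ + 2)) p ∧ Law2 S R m₀ (m₀ + 2) ε' p := ⟨_, rfl⟩
  have hTgT : Tg ⊆ T := by rw [hTg]; exact Finset.filter_subset _ _
  rw [hTc] at y2 y3 y4
  have hbad : ((T.card : ℝ) - Tg.card) ≤ 2 * ε' * T.card := by
    have h1 : (T \ Tg).card ≤
        {p : 𝓞 F × 𝓞 F | HW α β ρ ((Q : ℝ) ^ (m₀ + 2)) p ∧ InFam N a b p ∧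
          ¬ HW α β ρ ((1 + η) ^ (m₀ + 2) * (Q : ℝ) ^ (m₀ + 2)) p}.ncard +
        {p : 𝓞 F × 𝓞 F | HW α β ρ ((Q : ℝ) ^ (m₀ + 2)) p ∧ InFam N a b p ∧
          ¬ Law2 S R m₀ (m₀ + 2) ε' p}.ncard := by
      rw [← Set.ncard_coe_finset]
      refine (Set.ncard_le_ncard ?_ ?_).trans (Set.ncard_union_le _ _)
      · intro p hp
        rw [Finset.mem_coe, Finset.mem_sdiff, hTg, Finset.mem_filter, hTm] at hp
        obtain ⟨⟨h1, h2⟩, h3⟩ := hp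
        by_cases h4 : HW α β ρ ((1 + η) ^ (m₀ + 2) * (Q : ℝ) ^ (m₀ + 2)) p
        · right
          exact ⟨h1, h2, fun h5 => h3 ⟨⟨h1, h2⟩, h4, h5⟩⟩
        · left
          exact ⟨h1, h2, h4⟩
      · refine Set.Finite.union ?_ ?_
        · exact hTf.subset fun p hp => ⟨hp.1, hp.2.1⟩
        · exact hTf.subset fun p hp => ⟨hp.1, hp.2.1⟩
    have h2 : ((T \ Tg).card : ℝ) = (T.card : ℝ) - Tg.card := by
      rw [Finset.card_sdiff_of_subset hTgT, Nat.cast_sub (Finset.card_le_card hTgT)]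
    rw [← h2]
    have h3 : ((T \ Tg).card : ℝ) ≤
        ({p : 𝓞 F × 𝓞 F | HW α β ρ ((Q : ℝ) ^ (m₀ + 2)) p ∧ InFam N a b p ∧
          ¬ HW α β ρ ((1 + η) ^ (m₀ + 2) * (Q : ℝ) ^ (m₀ + 2)) p}.ncard : ℝ) +
        ({p : 𝓞 F × 𝓞 F | HW α β ρ ((Q : ℝ) ^ (m₀ + 2)) p ∧ InFam N a b p ∧
          ¬ Law2 S R m₀ (m₀ + 2) ε' p}.ncard : ℝ) := by exact_mod_cast h1
    linarith
  obtain ⟨φ, hφ⟩ : ∃ φ : Finset ℕ × (𝓞 F × 𝓞 F) → 𝓞 F × 𝓞 F, φ = fun x => tw (Dp x.1) x.2 :=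
    ⟨_, rfl⟩
  obtain ⟨r, hr⟩ : ∃ r : Finset ℕ → 𝓞 F × 𝓞 F → Prop, r = fun x p => HW α β ρ (Dp x) p := ⟨_, rfl⟩
  have hφinj : Set.InjOn φ (Cc ×ˢ T : Finset _) := by
    rintro ⟨x, p⟩ hx ⟨y, p'⟩ hy hxy
    rw [Finset.mem_coe, Finset.mem_product] at hx hy
    rw [hφ] at hxy
    obtain ⟨e1, e2⟩ := hD F N a b (Dp x) (Dp y) p p' (hδ0 x hx.1) (hδ0 y hy.1)
      ((hTm p).1 hx.2).2 ((hTm p').1 hy.2).2 hxy
    exact Prod.ext (hδinj x hx.1 y hy.1 e1) e2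
  -- the families as images
  have hG : ∀ κ : 𝓞 F × 𝓞 F → Prop, {P : 𝓞 F × 𝓞 F | HW α β ρ 1 P ∧ P ∈ Fml N a b D ∧ κ P}.ncard =
      ((Cc ×ˢ T).filter fun x => r x.1 x.2 ∧ κ (tw (Dp x.1) x.2)).card := by
    intro κ
    rw [← Finset.card_image_of_injOn (f := φ) (hφinj.mono (by
      intro x hx
      exact Finset.filter_subset _ _ hx)), ← Set.ncard_coe_finset]
    congr 1
    ext P
    rw [Finset.coe_image, Set.mem_image]
    constructor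
    · rintro ⟨h1, ⟨d, hd, p, hp, rfl⟩, h2⟩
      rw [hDd, Finset.mem_image] at hd
      obtain ⟨x, hx, rfl⟩ := hd
      rw [hw_tw] at h1
      refine ⟨(x, p), ?_, by rw [hφ]⟩
      rw [Finset.mem_coe, Finset.mem_filter, Finset.mem_product, hTm, hr]
      exact ⟨⟨hx, HW_mono (by positivity) (hδsize x hx).1 h1, hp⟩, h1, h2⟩
    · rintro ⟨⟨x, p⟩, hx, rfl⟩
      rw [Finset.mem_coe, Finset.mem_filter, Finset.mem_product, hTm, hr] at hx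
      obtain ⟨⟨hx1, hx2, hx3⟩, hx4, hx5⟩ := hx
      rw [hφ]
      refine ⟨(hw_tw _ _ _ _ _).2 hx4, ⟨Dp x, ?_, p, hx3, rfl⟩, hx5⟩
      rw [hDd]
      exact Finset.mem_image_of_mem _ hx1
  have hG0 : {P : 𝓞 F × 𝓞 F | HW α β ρ 1 P ∧ P ∈ Fml N a b D}.ncard =
      ((Cc ×ˢ T).filter fun x => r x.1 x.2).card := by
    have := hG fun _ => True
    simpa only [and_true] using this
  obtain ⟨κ, hκ⟩ : ∃ κ : ℕ → 𝓞 F × 𝓞 F → Prop, κ = fun k P => Gd (2 ^ k) P := ⟨_, rfl⟩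
  have hcnt := fun k => cnt T Tg Cc r (fun x p => κ k (tw (Dp x) p)) (pr2 k) ε' hTgT
    (by
      intro p hp x hx
      rw [hTg, Finset.mem_filter] at hp
      rw [hr]
      exact HW_mono (Nat.cast_nonneg _) (hδsize x hx).2 hp.2.1) (by
      intro p hp
      rw [hTg, Finset.mem_filter] at hp
      obtain ⟨-, -, e, he, hlaw⟩ := hp
      have hsel : ∀ x ∈ Cc, Gd (2 ^ e x) (tw (Dp x) p) := fun x hx => he x (hCsub x hx)
      have e1 : (Cc.filter fun x => κ k (tw (Dp x) p)) = Cc.filter fun x => e x = k := by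
        refine Finset.filter_congr fun x hx => ?_
        rw [hκ]
        show Gd (2 ^ k) (tw (Dp x) p) ↔ _
        constructor
        · intro h
          exact Nat.pow_right_injective le_rfl
            ((selP_of hC (hsel x hx)).symm.trans (selP_of hC h))
        · rintro rfl
          exact hsel x hx
      have e2 : ((Cc.filter fun x => e x = k).card : ℝ) =
          (((S.powersetCard (m₀ + 2)).filter fun J => e J = k).card : ℝ) +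
          ∑ r ∈ R, (((S.powersetCard m₀).filter fun J => e (insert r J) = k).card : ℝ) := by
        have h1 : (C2.filter fun x => e x = k).card =
            ∑ r ∈ R, ((S.powersetCard m₀).filter fun J => e (insert r J) = k).card := by
          rw [hC2, Finset.filter_image, Finset.card_image_of_injOn (fun x hx y hy =>
            hψinj x (Finset.filter_subset _ _ hx) y (Finset.filter_subset _ _ hy)),
            Finset.card_filter, Finset.sum_product_right]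
          refine Finset.sum_congr rfl fun r hr => ?_
          rw [Finset.card_filter, hψ]
        rw [hCc, Finset.filter_union, Finset.card_union_of_disjoint
          (Finset.disjoint_filter_filter hdisj), h1, hC1]
        push_cast
        rfl
      have hc1 : (0 : ℝ) < S.card.choose (m₀ + 2) := by
        rw [← hM₁]
        exact_mod_cast hM₁0
      have hc0 : (0 : ℝ) < S.card.choose m₀ := by
        exact_mod_cast Nat.choose_pos (by omega)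
      have l1 := (hlaw (m₀ + 2) (by omega) le_rfl k).1
      have l0 := (hlaw m₀ le_rfl (by omega) k).2
      have hM1r : (M₁ : ℝ) = S.card.choose (m₀ + 2) := by rw [hM₁]
      have hM0r : (R.card : ℝ) * (S.card.choose m₀ : ℝ) = M₁ := by exact_mod_cast hM₁'
      have l1' : |(((S.powersetCard (m₀ + 2)).filter fun J => e J = k).card : ℝ) -
          pr2par (e ∅ + (m₀ + 2)) k * M₁| ≤ ε' * M₁ := by
        rw [hM1r]
        have h1 := mul_le_mul_of_nonneg_right l1 hc1.le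
        rw [← abs_of_pos hc1, ← abs_mul, abs_of_pos hc1, sub_mul, div_mul_cancel₀ _ hc1.ne'] at h1
        exact h1
      have l0' : |(∑ r ∈ R, (((S.powersetCard m₀).filter fun J => e (insert r J) = k).card : ℝ)) -
          pr2par (e ∅ + 1 + m₀) k * M₁| ≤ ε' * M₁ := by
        rw [← hM0r]
        have h1 : (∑ r ∈ R, (((S.powersetCard m₀).filter fun J => e (insert r J) = k).card : ℝ)) -
            pr2par (e ∅ + 1 + m₀) k * (R.card * S.card.choose m₀) =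
            ∑ r ∈ R, ((((S.powersetCard m₀).filter fun J => e (insert r J) = k).card : ℝ) -
              pr2par (e ∅ + 1 + m₀) k * S.card.choose m₀) := by
          rw [Finset.sum_sub_distrib, Finset.sum_const, nsmul_eq_mul]
          ring
        rw [h1]
        refine (Finset.abs_sum_le_sum_abs _ _).trans ?_
        have h2 : ε' * (R.card * (S.card.choose m₀ : ℝ)) =
            ∑ r ∈ R, ε' * (S.card.choose m₀ : ℝ) := by
          rw [Finset.sum_const, nsmul_eq_mul]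
          ring
        rw [h2]
        refine Finset.sum_le_sum fun r hr => ?_
        have h3 := mul_le_mul_of_nonneg_right (l0 r hr) hc0.le
        rw [← abs_of_pos hc0, ← abs_mul, abs_of_pos hc0, sub_mul, div_mul_cancel₀ _ hc0.ne'] at h3
        exact h3
      rw [e1, e2, hCcard]
      have h3 := pr2par_add (e ∅ + 1 + m₀) k
      rw [show e ∅ + 1 + m₀ + 1 = e ∅ + (m₀ + 2) by ring] at h3
      rw [abs_le] at l1' l0' ⊢
      obtain ⟨u1, u2⟩ := l1'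
      obtain ⟨w1, w2⟩ := l0'
      have h4 : pr2 k * (2 * (M₁ : ℝ)) = pr2par (e ∅ + (m₀ + 2)) k * M₁ +
          pr2par (e ∅ + 1 + m₀) k * M₁ := by
        rw [← add_mul, h3]
        ring
      rw [h4]
      constructor <;> linarith) (hE.1 k).le (hE1 k) hε0 hε1 hbad
  refine ⟨y1, ?_, fun k => ?_⟩
  · refine y2.trans ?_
    rw [hG0]
    have h1 := (hcnt 0).1
    rw [hCcard] at h1
    have h2 : (1 : ℝ) ≤ M₁ := by exact_mod_cast hM₁0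
    have h3 : (0 : ℝ) ≤ T.card := Nat.cast_nonneg _
    nlinarith
  · have h1 := (hcnt k).2
    have h2 : {P : 𝓞 F × 𝓞 F | HW α β ρ 1 P ∧ P ∈ Fml N a b D ∧ Gd (2 ^ k) P}.ncard =
      ((Cc ×ˢ T).filter fun x => r x.1 x.2 ∧ κ k (tw (Dp x.1) x.2)).card := by
      rw [← hG (κ k), hκ]
    rw [h2, hG0]
    refine h1.trans ?_
    exact mul_le_mul_of_nonneg_right hε2 (Nat.cast_nonneg _)

/-- As `S_FIN7X`, with `StrX`. -/
def S_FIN7Y : Prop := ∀ (F : Type) [Field F] [NumberField F] (α β : InfinitePlace F → ℝ),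
  (∀ v, 0 < α v ∧ 0 < β v) → ∀ ε : ℝ, 0 < ε →
  ∃ (M : ℕ) (R : Set (𝓞 F × 𝓞 F)), 0 < M ∧
    (∀ p p' : 𝓞 F × 𝓞 F, p ∈ R → p'.1 - p.1 ∈ sp F M → p'.2 - p.2 ∈ sp F M → p' ∈ R) ∧
    ∀ G : Set (𝓞 F × 𝓞 F), G = {p | p ∈ R ∧ ∀ 𝔭 : Ideal (𝓞 F), 𝔭.IsPrime → (M : 𝓞 F) ∉ 𝔭 →
      4 * p.1 ^ 3 + 27 * p.2 ^ 2 ∉ 𝔭 ^ 2} →
    (∀ p ∈ G, ∀ 𝔭 : Ideal (𝓞 F), 𝔭.IsPrime → 𝔭 ≠ ⊥ → ¬ (p.1 ∈ 𝔭 ^ 4 ∧ p.2 ∈ 𝔭 ^ 6)) ∧
    (∀ p ∈ G, StrX p) ∧
    ∃ (c L₀ : ℝ), 0 < c ∧ ∀ r : InfinitePlace F → ℝ, (∀ v, 0 < r v) →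
    {p : 𝓞 F × 𝓞 F | HW α β r 1 p}.Finite ∧ (L₀ ≤ ∏ v, r v ^ v.mult →
    0 < {p : 𝓞 F × 𝓞 F | HW α β r 1 p ∧ 4 * p.1 ^ 3 + 27 * p.2 ^ 2 ≠ 0}.ncard ∧
    c * ({p : 𝓞 F × 𝓞 F | HW α β r 1 p ∧ 4 * p.1 ^ 3 + 27 * p.2 ^ 2 ≠ 0}.ncard : ℝ) ≤
      ({p : 𝓞 F × 𝓞 F | HW α β r 1 p ∧ p ∈ G}.ncard : ℝ) ∧
    ∀ K : Set ℕ, |({p : 𝓞 F × 𝓞 F | HW α β r 1 p ∧ p ∈ G ∧ ∃ k ∈ K, Gd (2 ^ k) p}.ncard : ℝ) -
        (∑' k : K, pr2 k) * ({p : 𝓞 F × 𝓞 F | HW α β r 1 p ∧ p ∈ G}.ncard : ℝ)| ≤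
      ε * ({p : 𝓞 F × 𝓞 F | HW α β r 1 p ∧ p ∈ G}.ncard : ℝ))

theorem fin7y (hC : S_COC) (hE : S_EUL) (hF : S_FAM7Y) (hG : S_CGR) : S_FIN7Y := by
  intro F _ _ α β hαβ ε hε
  obtain ⟨ε', hε', htv⟩ := tv hE hε
  obtain ⟨N, a, b, D, hok, hD, hst, c, L₀, hc, h⟩ := hF F α β hαβ ε' hε'
  obtain ⟨M, R, hM, hR, hFR⟩ := hG F N a b D hok fun d hd => (hD d hd).1
  refine ⟨M, R, hM, hR, ?_⟩
  rintro G hGd
  rw [← hFR] at hGd
  refine ⟨fun p hp => ?_, fun p hp => hst p (by rw [← hGd]; exact hp), c, L₀, hc,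
    fun r hr => ⟨(h r hr).1, fun hL => ?_⟩⟩
  · rw [hGd] at hp
    exact mini hD hp
  obtain ⟨h1, h2, h3⟩ := (h r hr).2 hL
  rw [hGd]
  refine ⟨h1, h2, fun K => ?_⟩
  have hfin : {p : 𝓞 F × 𝓞 F | HW α β r 1 p ∧ p ∈ Fml N a b D}.Finite :=
    (h r hr).1.subset fun p hp => hp.1
  have h4 := htv _ {p : 𝓞 F × 𝓞 F | HW α β r 1 p ∧ p ∈ Fml N a b D} gdN hfin (fun k => by
    refine le_trans (le_of_eq ?_) (h3 k)
    congr 4
    ext p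
    simp only [Set.mem_setOf_eq, gdN_iff hC, and_assoc]) K
  refine le_trans (le_of_eq ?_) h4
  congr 4
  ext p
  simp only [Set.mem_setOf_eq, gdN_iff hC, and_assoc]

theorem bal7T : S_BAL7X :=
  bal7x (law4 mixT Pool.Agent.H42PR.Lin2.lin2) Pool.Agent.H42PR.Lin2.lin2
    Pool.Agent.H42PR.Bin.bin core3T lbtT
    badtT famx Pool.Agent.H72P.PR.scls bad sqf
    Pool.Agent.N667.PF.irr Pool.Agent.N667.PF.gen Pool.Agent.N490.PF.pts Pool.Agent.N352.PF.dscT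

theorem fin7yT : S_FIN7Y :=
  fin7y Pool.Agent.H42PR.coc Pool.Agent.H10PR.eul
    (fam7y Pool.Agent.N667.PF.irr Pool.Agent.H42PR.coc Pool.Agent.H10PR.eul bal7T
      Pool.Agent.H18PR.shl Pool.Agent.H71PR.regw Pool.Agent.H18PR.exv dsj) cgr

end Pool.Agent.H18X
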